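import Pool.Agent.Helper85.P11.Base
import Pool.Agent.Helper83.P1C.StB

/-!
# The level `169`: six values determine a symbol

The list of steps has been made by a program.
-/

set_option autoImplicit false

namespace Pool.Agent.Helper83.P13

open Pool.Agent.Helper14.CV (Homog EqC act Tl StFar StFex)
open Pool.Agent.Helper28.WK (SymP Tw evw Ok)
open Pool.Agent.Helper85.T5C (cls_of)
open Pool.Agent.Helper85.P11 (Inv okA fin1 inv_sq)

/-- Representatives. -/
private def LA : List (ℤ × ℤ × ℤ × ℤ) :=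
  [(0, 1, -1, 0), (0, -1, 1, 1), (0, 1, -1, 6), (0, 1, -1, 4), (0, 1, -1, 3), (0, 1, -1, 5),
    (0, 1, -1, 2), (0, -1, 1, 2), (0, -1, 1, 5), (0, -1, 1, 3), (0, -1, 1, 4), (0, -1, 1, 6),
    (0, 1, -1, 1), (1, 0, 0, 1), (1, 0, 1, 1), (1, 0, 2, 1), (1, 0, 3, 1), (1, 0, 4, 1),
    (1, 0, 5, 1), (1, 0, 6, 1), (1, 0, -6, 1), (1, 0, -5, 1), (1, 0, -4, 1), (1, 0, -3, 1),
    (1, 0, -2, 1), (1, 0, -1, 1), (1, 1, 0, 1), (1, 1, -1, 0), (-1, -1, 2, 1), (1, 1, 5, 6),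
    (1, 1, 3, 4), (1, 1, 2, 3), (1, 1, 4, 5), (1, 1, 1, 2), (-1, -1, 3, 2), (-1, -1, 6, 5),
    (-1, -1, 4, 3), (-1, -1, 5, 4), (7, -6, -1, 1), (1, -6, 0, 1), (2, 1, -1, 0), (2, 1, 1, 1),
    (-2, -1, 3, 1), (-7, 3, -5, 2), (2, 1, 7, 4), (2, 1, 5, 3), (5, 9, 1, 2), (-9, 2, -5, 1),
    (-2, -1, 5, 2), (-2, -1, 11, 5), (7, -3, -2, 1), (5, -4, -1, 1), (1, -4, 0, 1),
    (3, 1, -1, 0), (-5, -6, 1, 1), (3, 1, 2, 1), (-1, 4, -1, 3), (-4, 3, -3, 2),
    (-2, -5, 3, 7), (-4, 3, -19, 14), (3, 1, 14, 5), (2, 5, 1, 3), (7, -2, -3, 1),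
    (11, -5, -2, 1), (4, -3, -1, 1), (1, -3, 0, 1), (4, 1, -1, 0), (-3, -4, 1, 1),
    (5, -2, -7, 3), (4, 1, 3, 1), (3, 4, 2, 3), (-1, 3, -1, 2), (-5, -11, 1, 2),
    (-1, 3, -5, 14), (-2, -7, 1, 3), (-5, 2, -3, 1), (3, 4, 14, 19), (6, -5, -1, 1),
    (1, -5, 0, 1), (5, 1, -1, 0), (-2, -3, 1, 1), (-7, -4, 2, 1), (3, -2, -4, 3),
    (-2, -3, 3, 4), (4, -7, -1, 2), (2, 3, 1, 2), (4, 19, 1, 5), (5, 14, 1, 3),
    (-14, 5, -3, 1), (-3, 2, -2, 1), (3, -2, -1, 1), (1, -2, 0, 1), (6, 1, -1, 0),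
    (-4, -5, 1, 1), (-1, 2, -3, 5), (3, 7, 2, 5), (1, -2, -1, 3), (-1, 2, -4, 7),
    (-3, -7, 1, 2), (2, 9, 1, 5), (1, -2, -5, 11), (1, -2, -2, 5), (-1, 2, -5, 9),
    (-1, 2, -1, 1), (1, 2, 0, 1), (-6, 1, -1, 0), (-1, -2, 1, 1), (-1, -2, 5, 9), (1, 2, 2, 5),
    (1, 2, 5, 11), (2, -9, -1, 5), (-3, 7, -1, 2), (-1, -2, 4, 7), (1, 2, 1, 3),
    (3, -7, -2, 5), (-1, -2, 3, 5), (-4, 5, -1, 1), (1, 5, 0, 1), (-5, 1, -1, 0), (3, 2, 1, 1),
    (-3, -2, 2, 1), (-14, -5, 3, 1), (5, -14, -1, 3), (4, -19, -1, 5), (2, -3, -1, 2),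
    (4, 7, 1, 2), (-2, 3, -3, 4), (3, 2, 4, 3), (-7, 4, -2, 1), (-2, 3, -1, 1), (1, 3, 0, 1),
    (-4, 1, -1, 0), (6, 5, 1, 1), (3, -4, -14, 19), (-5, -2, 3, 1), (-2, 7, -1, 3),
    (-1, -3, 5, 14), (-5, 11, -1, 2), (-1, -3, 1, 2), (3, -4, -2, 3), (4, -1, -3, 1),
    (5, 2, 7, 3), (-3, 4, -1, 1), (1, 4, 0, 1), (-3, 1, -1, 0), (4, 3, 1, 1), (11, 5, 2, 1),
    (7, 2, 3, 1), (2, -5, -1, 3), (3, -1, -14, 5), (-4, -3, 19, 14), (-2, 5, -3, 7),
    (-4, -3, 3, 2), (-1, -4, 1, 3), (3, -1, -2, 1), (-5, 6, -1, 1), (1, 6, 0, 1),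
    (-2, 1, -1, 0), (5, 4, 1, 1), (7, 3, 2, 1), (-2, 1, -11, 5), (-2, 1, -5, 2),
    (-9, -2, 5, 1), (5, -9, -1, 2), (2, -1, -5, 3), (2, -1, -7, 4), (-7, -3, 5, 2),
    (-2, 1, -3, 1), (2, -1, -1, 1), (1, -1, 0, 1), (-1, 1, -1, 0), (7, 6, 1, 1),
    (-1, 1, -5, 4), (-1, 1, -4, 3), (-1, 1, -6, 5), (-1, 1, -3, 2), (1, -1, -1, 2),
    (1, -1, -4, 5), (1, -1, -2, 3), (1, -1, -3, 4), (1, -1, -5, 6), (-1, 1, -2, 1)]

/-- Vectors with the same value. -/
private def Ks : List (ℤ × ℤ) :=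
  [(0, 1), (1, 0), (1, 1), (1, 6), (1, 4), (1, 3), (1, 5), (1, 2), (7, 1), (6, 1), (2, 1),
    (2, 3), (7, 5), (3, 2), (2, 7), (2, 5), (5, 1), (9, 2), (9, 5), (2, 11), (7, 2), (3, 1),
    (4, 1), (4, 3), (5, 7), (4, 19), (3, 14), (5, 3), (7, 3), (11, 2), (3, 4), (19, 5),
    (14, 3), (2, 9)]

/-- The points of the projective line. -/
private def Pt : List (ZMod 13 × ZMod 13) :=
  [(1, 0), (0, 1), (1, 1), (2, 1), (3, 1), (4, 1), (5, 1), (6, 1), (7, 1), (8, 1), (9, 1),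
    (10, 1), (11, 1), (12, 1)]

private instance : Fact (Nat.Prime 13) := ⟨by norm_num⟩

set_option maxRecDepth 100000 in
private lemma clsA : ∀ p q r s : ZMod 13, p * s - q * r = 1 → ∃ t ∈ LA,
    q * (t.1 : ZMod 13) - p * (t.2.1 : ZMod 13) = 0 ∧
      r * (t.2.2.2 : ZMod 13) - s * (t.2.2.1 : ZMod 13) = 0 :=
  cls_of Pt LA (by decide) (by decide) (by decide)

set_option maxRecDepth 100000 in
private lemma chkA : ∀ t ∈ LA, okA Ks t := by decide

private lemma dvdp {n : ℤ} : (13 : ℤ) ∣ n ↔ (n : ZMod 13) = 0 :=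
  (ZMod.intCast_zmod_eq_zero_iff_dvd n 13).symm

private theorem main169 (hfar : StFar) {F : ℤ → ℤ → ℂ} (h : Inv 13 13 1 F) {κ : ℂ}
    (k0 : F 1 0 = κ) (b0 : F 0 1 = κ) (k2 : F 2 1 = κ) (k3 : F 3 1 = κ)
    (k4 : F 4 1 = κ) (k5 : F 5 1 = κ) (k6 : F 6 1 = κ) :
    EqC F 0 := by
  have hs : ∀ (k x y : ℤ), k ≠ 0 → (x ≠ 0 ∨ y ≠ 0) → F (k * x) (k * y) = F x y := h.hom
  have st : ∀ x y : ℤ, (x ≠ 0 ∨ y ≠ 0) → F (-x) y = F x y := h.st
  have sw : ∀ x y : ℤ, (x ≠ 0 ∨ y ≠ 0) → F (-y) (1 * x) - κ = -(F x y - κ) := by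
    intro x y hv
    have e := h.sw x y 1 0 hv (by norm_num)
    rw [neg_zero, mul_one, b0, k0] at e
    exact e
  have cl : ∀ x y : ℤ, (x ≠ 0 ∨ y ≠ 0) → F x y = κ → ∀ k X Y : ℤ, k ≠ 0 →
      ((X = k * x ∧ Y = k * y) ∨ (X = -(k * x) ∧ Y = k * y)) → F X Y = κ := by
    rintro x y hv hx k X Y hk (⟨rfl, rfl⟩ | ⟨rfl, rfl⟩)
    · rw [hs k x y hk hv, hx]
    · have e : -(k * x) = k * (-x) := by ring
      rw [e, hs k (-x) y hk (by rcases hv with h | h; exacts [Or.inl (neg_ne_zero.2 h), Or.inr h]),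
        st x y hv, hx]
  have sk : ∀ x y X Y k : ℤ, ((x ≠ 0 ∨ y ≠ 0) ∧ (X ≠ 0 ∨ Y ≠ 0) ∧ k ≠ 0 ∧
      ((-y = k * X ∧ 1 * x = k * Y) ∨ (-y = -(k * X) ∧ 1 * x = k * Y))) →
      F X Y = 2 * κ - F x y := by
    rintro x y X Y k ⟨hv, hV, hk, h1 | h1⟩
    · have e := sw x y hv
      rw [h1.1, h1.2, hs k X Y hk hV] at e
      linear_combination e
    · have e := sw x y hv
      have e1 : -(k * X) = k * (-X) := by ring
      rw [h1.1, h1.2, e1, hs k (-X) Y hk
        (by rcases hV with h | h; exacts [Or.inl (neg_ne_zero.2 h), Or.inr h]), st X Y hV] at e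
      linear_combination e
  have wk : ∀ x y X Y k : ℤ, ((x ≠ 0 ∨ y ≠ 0) ∧ (X ≠ 0 ∨ Y ≠ 0) ∧ k ≠ 0 ∧
      ((-y = k * X ∧ 1 * x = k * Y) ∨ (-y = -(k * X) ∧ 1 * x = k * Y))) → F x y = κ →
      F X Y = κ := by
    intro x y X Y k hc hx
    linear_combination sk x y X Y k hc - hx
  have stn : ∀ x y X : ℤ, (X = -x ∧ (x ≠ 0 ∨ y ≠ 0)) → F X y = F x y := by
    rintro x y X ⟨rfl, hv⟩
    exact st x y hv
  have G : ∀ a b c d : ℤ, a * d - 13 * b * (13 * c) = 1 → ∀ x y z w X Y Z W k l : ℤ,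
      ((x ≠ 0 ∨ y ≠ 0) ∧ (z ≠ 0 ∨ w ≠ 0) ∧ (X ≠ 0 ∨ Y ≠ 0) ∧ (Z ≠ 0 ∨ W ≠ 0) ∧ k ≠ 0 ∧ l ≠ 0 ∧
        a * x + 13 * b * y = k * X ∧ 13 * c * x + d * y = k * Y ∧
        a * z + 13 * b * w = l * Z ∧ 13 * c * z + d * w = l * W) →
      F X Y - F Z W = F x y - F z w := by
    rintro a b c d hT x y z w X Y Z W k l ⟨n1, n2, n3, n4, hk, hl, q1, q2, q3, q4⟩
    have e := h.gam a b c d hT x y z w n1 n2
    rw [q1, q2, q3, q4, hs k X Y hk n3, hs l Z W hl n4] at e
    exact e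
  have e1 : F (1) (1) = F (1) (1) := by
    linear_combination (G (-14) (1) (-1) (12) (by decide) (1) (1) (1) (1) (1) (1) (1) (1) (-1) (-1) (by decide))
  have c1_1 : F 1 1 = κ := (by linear_combination (sk (1) (1) (1) (1) (1) (by decide) - e1) / 2)
  have c1_6 : F 1 6 = κ := wk (6) (1) (1) (6) (1) (by decide) k6
  have c1_4 : F 1 4 = κ := wk (4) (1) (1) (4) (1) (by decide) k4
  have c1_3 : F 1 3 = κ := wk (3) (1) (1) (3) (1) (by decide) k3
  have c1_5 : F 1 5 = κ := wk (5) (1) (1) (5) (1) (by decide) k5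
  have c1_2 : F 1 2 = κ := wk (2) (1) (1) (2) (1) (by decide) k2
  have e2 : F (-6) (1) = F (7) (1) := by
    linear_combination (G (1) (-1) (0) (1) (by decide) (7) (1) (1) (0) (-6) (1) (1) (0) (1) (1) (by decide))
  have c7_1 : F 7 1 = κ := (e2.symm.trans (cl 6 1 (by decide) k6 (1) (-6) (1) (by decide) (by decide)))
  have e3 : F (7) (12) = F (2) (3) := by
    linear_combination 2 / 3 * (G (-23) (1) (-3) (22) (by decide) (2) (3) (7) (12) (7) (12) (5) (9) (-1) (-1) (by decide)) +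
      1 / 3 * (G (-23) (1) (-3) (22) (by decide) (7) (12) (5) (9) (5) (9) (2) (3) (-1) (1) (by decide))
  have e4 : F (12) (7) = F (7) (12) := by
    linear_combination (G (-24) (1) (-1) (7) (by decide) (7) (12) (1) (2) (12) (7) (2) (1) (-1) (1) (by decide)) + k2 - c1_2
  have c7_12 : F 7 12 = κ := (by linear_combination (sk (7) (12) (12) (7) (1) (by decide) - e4) / 2)
  have c2_3 : F 2 3 = κ := (e3.symm.trans c7_12)
  have e6 : F (2) (7) = F (7) (2) := by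
    linear_combination (G (-4) (1) (-1) (42) (by decide) (7) (2) (3) (1) (2) (7) (1) (3) (-1) (1) (by decide)) + c1_3 - k3
  have c7_2 : F 7 2 = κ := (by linear_combination (sk (7) (2) (2) (7) (1) (by decide) - e6) / 2)
  have e7 : F (-16) (3) = F (-11) (2) := by
    linear_combination 1 / 2 * (G (-70) (-29) (1) (70) (by decide) (-11) (2) (-16) (3) (-16) (3) (-11) (2) (-1) (1) (by decide))
  have e8 : F (-16) (3) = F (-2) (11) := by
    linear_combination (G (-135) (-2) (2) (5) (by decide) (-2) (11) (-1) (5) (-16) (3) (-5) (1) (1) (-1) (by decide)) + (cl 5 1 (by decide) k5 (1) (-5) (1) (by decide) (by decide)) - (cl 1 5 (by decide) c1_5 (1) (-1) (5) (by decide) (by decide))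
  have e9 : F (-11) (2) = F (-5) (7) := by
    linear_combination (G (-75) (-4) (1) (9) (by decide) (-5) (7) (-2) (3) (-11) (2) (-6) (1) (-1) (1) (by decide)) + (cl 6 1 (by decide) k6 (1) (-6) (1) (by decide) (by decide)) - (cl 2 3 (by decide) c2_3 (1) (-2) (3) (by decide) (by decide))
  have e10 : F (4) (1) = F (5) (6) := by
    linear_combination (G (-46) (3) (-1) (11) (by decide) (5) (6) (1) (1) (4) (1) (7) (2) (1) (-1) (by decide)) + c7_2 - c1_1
  have c5_6 : F 5 6 = κ := (e10.symm.trans k4)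
  have l11 : F (-4) (3) = κ := by
    linear_combination (1/2) * e7 +
      (-1/2) * e8 +
      (1) * e9 +
      (1) * (G (-17) (-1) (-1) (-10) (by decide) (-1) (1) (-5) (6) (4) (3) (7) (5) (1) (1) (by decide)) +
      -(1/2) * (sk (-11) (2) (-2) (11) (-1) (by decide)) +
      -(-1) * (sk (-7) (5) (-5) (7) (-1) (by decide)) +
      -(-1) * (stn (-7) (5) (7) (by decide)) +
      -(1) * (cl 5 6 (by decide) c5_6 (1) (-5) (6) (by decide) (by decide)) +
      -(1) * (stn (-4) (3) (4) (by decide)) +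
      -(-1) * (cl 1 1 (by decide) c1_1 (1) (-1) (1) (by decide) (by decide))
  have c4_3 : F 4 3 = κ := cl (-4) (3) (by decide) l11 (1) (4) (3) (by decide) (by decide)
  have e5 : F (-4) (1) = F (7) (5) := by
    linear_combination (G (-47) (5) (1) (-18) (by decide) (7) (5) (4) (3) (-4) (1) (-7) (2) (1) (-1) (by decide)) + (cl 7 2 (by decide) c7_2 (1) (-7) (2) (by decide) (by decide)) - c4_3
  have c7_5 : F 7 5 = κ := (e5.symm.trans (cl 4 1 (by decide) k4 (1) (-4) (1) (by decide) (by decide)))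
  have e12 : F (3) (2) = F (12) (7) := by
    linear_combination 2 / 3 * (G (-23) (3) (-1) (22) (by decide) (12) (7) (3) (2) (3) (2) (9) (5) (-1) (1) (by decide)) +
      1 / 3 * (G (-23) (3) (-1) (22) (by decide) (3) (2) (9) (5) (9) (5) (12) (7) (1) (-1) (by decide))
  have e13 : F (7) (12) = F (12) (7) := by
    linear_combination (G (-7) (1) (-1) (24) (by decide) (12) (7) (2) (1) (7) (12) (1) (2) (1) (-1) (by decide)) + c1_2 - k2
  have c12_7 : F 12 7 = κ := (by linear_combination (sk (12) (7) (7) (12) (1) (by decide) - e13) / 2)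
  have c3_2 : F 3 2 = κ := e12.trans c12_7
  have e14 : F (7) (2) = F (2) (7) := by
    linear_combination (G (-42) (1) (-1) (4) (by decide) (2) (7) (1) (3) (7) (2) (3) (1) (1) (-1) (by decide)) + k3 - c1_3
  have c2_7 : F 2 7 = κ := (by linear_combination (sk (2) (7) (7) (2) (1) (by decide) - e14) / 2)
  have e16 : F (7) (3) = F (3) (7) := by
    linear_combination (G (-28) (1) (-1) (6) (by decide) (3) (7) (1) (2) (7) (3) (2) (1) (1) (-1) (by decide)) + k2 - c1_2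
  have c3_7 : F 3 7 = κ := (by linear_combination (sk (3) (7) (7) (3) (1) (by decide) - e16) / 2)
  have e15 : F (-14) (3) = F (2) (5) := by
    linear_combination (G (-123) (4) (2) (-11) (by decide) (2) (5) (3) (7) (-14) (3) (-5) (1) (-1) (1) (by decide)) + (cl 5 1 (by decide) k5 (1) (-5) (1) (by decide) (by decide)) - c3_7
  have e17 : F (3) (14) = F (14) (3) := by
    linear_combination (G (-3) (1) (-1) (56) (by decide) (14) (3) (4) (1) (3) (14) (1) (4) (-1) (1) (by decide)) + c1_4 - k4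
  have c14_3 : F 14 3 = κ := (by linear_combination (sk (14) (3) (3) (14) (1) (by decide) - e17) / 2)
  have c2_5 : F 2 5 = κ := (e15.symm.trans (cl 14 3 (by decide) c14_3 (1) (-14) (3) (by decide) (by decide)))
  have e18 : F (9) (2) = F (1) (5) := by
    linear_combination (G (-56) (1) (-1) (3) (by decide) (1) (5) (1) (4) (9) (2) (4) (1) (1) (-1) (by decide)) + k4 - c1_4
  have c9_2 : F 9 2 = κ := e18.trans c1_5
  have e19 : F (12) (7) = F (9) (5) := by
    linear_combination 2 / 3 * (G (-23) (3) (-1) (22) (by decide) (9) (5) (12) (7) (12) (7) (3) (2) (-1) (-1) (by decide)) +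
      1 / 3 * (G (-23) (3) (-1) (22) (by decide) (12) (7) (3) (2) (3) (2) (9) (5) (-1) (1) (by decide))
  have c9_5 : F 9 5 = κ := (e19.symm.trans c12_7)
  have e20 : F (7) (5) = F (2) (11) := by
    linear_combination (G (-75) (1) (-4) (9) (by decide) (2) (11) (1) (6) (7) (5) (3) (2) (-1) (1) (by decide)) + c3_2 - c1_6
  have c2_11 : F 2 11 = κ := (e20.symm.trans c7_5)
  have c3_4 : F 3 4 = κ := wk (-4) (3) (3) (4) (-1) (by decide) (cl 4 3 (by decide) c4_3 (1) (-4) (3) (by decide) (by decide))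
  have e21 : F (5) (7) = F (-1) (4) := by
    linear_combination (G (-47) (-1) (-5) (-18) (by decide) (-1) (4) (-2) (7) (5) (7) (3) (4) (-1) (1) (by decide)) + c3_4 - (cl 2 7 (by decide) c2_7 (1) (-2) (7) (by decide) (by decide))
  have c5_7 : F 5 7 = κ := e21.trans (cl 1 4 (by decide) c1_4 (1) (-1) (4) (by decide) (by decide))
  have e23 : F (3) (7) = F (7) (3) := by
    linear_combination (G (-6) (1) (-1) (28) (by decide) (7) (3) (2) (1) (3) (7) (1) (2) (-1) (1) (by decide)) + c1_2 - k2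
  have c7_3 : F 7 3 = κ := (by linear_combination (sk (7) (3) (3) (7) (1) (by decide) - e23) / 2)
  have e22 : F (4) (19) = F (-2) (1) := by
    linear_combination (G (-11) (-2) (-4) (-123) (by decide) (-2) (1) (-7) (3) (4) (19) (1) (5) (-1) (-1) (by decide)) + c1_5 - (cl 7 3 (by decide) c7_3 (1) (-7) (3) (by decide) (by decide))
  have c4_19 : F 4 19 = κ := e22.trans (cl 2 1 (by decide) k2 (1) (-2) (1) (by decide) (by decide))
  have e24 : F (14) (3) = F (3) (14) := by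
    linear_combination (G (-56) (1) (-1) (3) (by decide) (3) (14) (1) (4) (14) (3) (4) (1) (1) (-1) (by decide)) + k4 - c1_4
  have c3_14 : F 3 14 = κ := (by linear_combination (sk (3) (14) (14) (3) (1) (by decide) - e24) / 2)
  have e25 : F (2) (1) = F (5) (3) := by
    linear_combination 2 / 3 * (G (-23) (3) (-1) (22) (by decide) (5) (3) (2) (1) (2) (1) (7) (4) (1) (-1) (by decide)) +
      1 / 3 * (G (-23) (3) (-1) (22) (by decide) (2) (1) (7) (4) (7) (4) (5) (3) (-1) (-1) (by decide))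
  have c5_3 : F 5 3 = κ := (e25.symm.trans k2)
  have e26 : F (11) (2) = F (5) (7) := by
    linear_combination (G (-75) (4) (-1) (9) (by decide) (5) (7) (2) (3) (11) (2) (6) (1) (-1) (1) (by decide)) + k6 - c2_3
  have c11_2 : F 11 2 = κ := e26.trans c5_7
  have e27 : F (19) (5) = F (4) (1) := by
    linear_combination 1 / 2 * (G (99) (-29) (2) (-99) (by decide) (4) (1) (19) (5) (19) (5) (4) (1) (1) (-1) (by decide))
  have c19_5 : F 19 5 = κ := e27.trans k4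
  have e28 : F (5) (1) = F (2) (9) := by
    linear_combination (G (-56) (1) (-1) (3) (by decide) (2) (9) (1) (4) (5) (1) (4) (1) (1) (-1) (by decide)) + k4 - c1_4
  have c2_9 : F 2 9 = κ := (e28.symm.trans k5)
  have hK : ∀ c ∈ Ks, F c.1 c.2 = κ := by
    intro c hc
    simp only [Ks, List.mem_cons, List.not_mem_nil, or_false] at hc
    rcases hc with rfl | rfl | rfl | rfl | rfl | rfl | rfl | rfl | rfl | rfl | rfl | rfl | rfl | rfl | rfl | rfl | rfl | rfl | rfl | rfl | rfl | rfl | rfl | rfl | rfl | rfl | rfl | rfl | rfl | rfl | rfl | rfl | rfl | rfl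
    · exact b0
    · exact k0
    · exact c1_1
    · exact c1_6
    · exact c1_4
    · exact c1_3
    · exact c1_5
    · exact c1_2
    · exact c7_1
    · exact k6
    · exact k2
    · exact c2_3
    · exact c7_5
    · exact c3_2
    · exact c2_7
    · exact c2_5
    · exact k5
    · exact c9_2
    · exact c9_5
    · exact c2_11
    · exact c7_2
    · exact k3
    · exact k4
    · exact c4_3
    · exact c5_7
    · exact c4_19
    · exact c3_14
    · exact c5_3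
    · exact c7_3
    · exact c11_2
    · exact c3_4
    · exact c19_5
    · exact c14_3
    · exact c2_9
  refine fin1 hfar h κ Ks hK LA chkA (fun p q r s hd => ?_)
  have hc : (p : ZMod 13) * s - q * r = 1 := by
    have h' := congrArg (Int.cast : ℤ → ZMod 13) hd
    push_cast at h'
    exact h'
  obtain ⟨t, htL, c1, c2⟩ := clsA _ _ _ _ hc
  exact ⟨t, htL, dvdp.2 (by push_cast; exact c1), dvdp.2 (by push_cast; exact c2)⟩

/-- The coordinates at level `169`. -/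
def a13 : (ℤ → ℤ → ℂ) →ₗ[ℂ] (Fin 6 → ℂ) where
  toFun K := ![K 0 1 - K 1 0, K 2 13 - K 1 0, K 3 13 - K 1 0, K 4 13 - K 1 0, K 5 13 - K 1 0,
    K 6 13 - K 1 0]
  map_add' K L := by
    funext i
    fin_cases i <;> simp <;> ring
  map_smul' s K := by
    funext i
    fin_cases i <;> simp <;> ring

/-- Level `169`. -/
theorem bsP13 (hfar : StFar) : Pool.Agent.Helper83.P1C.BsP 13 6 a13 := by
  intro K hS hW hst ha
  have f0 : K 0 1 - K 1 0 = 0 := congrFun ha 0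
  have f1 : K 2 13 - K 1 0 = 0 := congrFun ha 1
  have f2 : K 3 13 - K 1 0 = 0 := congrFun ha 2
  have f3 : K 4 13 - K 1 0 = 0 := congrFun ha 3
  have f4 : K 5 13 - K 1 0 = 0 := congrFun ha 4
  have f5 : K 6 13 - K 1 0 = 0 := congrFun ha 5
  have hI := inv_sq (by norm_num) hS hW hst
  norm_num at hI
  have hH := hS.1
  have hc := main169 hfar hI (κ := K 1 0) (by norm_num) (by
      have := hH 13 0 1 (by norm_num) (by norm_num)
      norm_num at this ⊢
      rw [this]; exact sub_eq_zero.1 f0)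
    (by norm_num; exact sub_eq_zero.1 f1)
    (by norm_num; exact sub_eq_zero.1 f2)
    (by norm_num; exact sub_eq_zero.1 f3)
    (by norm_num; exact sub_eq_zero.1 f4)
    (by norm_num; exact sub_eq_zero.1 f5)
  obtain ⟨c, hc⟩ := hc
  refine ⟨c, fun p q hpq => ?_⟩
  have e1 := hc (13 * p) q (by omega)
  have e2 := hH 13 p q (by norm_num) hpq
  simp only at e1
  rw [← e2, e1]
  simp

end Pool.Agent.Helper83.P13
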