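import Pool.Agent.Helper83.P1C.Fin
import Pool.Agent.Helper83.P13.M_Bs13
import Pool.Agent.Helper85.P11.M_Core13
import Pool.Agent.Helper38.CV.M_Far

/-!
# Levels `13^n`: the cores and weight two from the bounds
-/

set_option autoImplicit false

open UpperHalfPlane CongruenceSubgroup
open scoped MatrixGroups

namespace Pool.Agent.Helper83.P13

open Pool.Agent.Helper28.TL (IsNewN)
open Pool.Agent.Helper14.CV (G0)
open Pool.Agent.Helper83.P1C

theorem bs13 : BsP 13 6 a13 := bsP13 Pool.Agent.Helper38.CV.hFar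

theorem core1_13 : CoreVP 13 1 := Pool.Agent.Helper85.P11.hCore13 Pool.Agent.Helper38.CV.hFar

/-- The core for levels `13^n`, `n ≥ 3`, from the bounds. -/
theorem core3_13 {dd : ℕ → ℕ} (ub : UBP 13 dd) (lb : LBP 13 6 dd) : CoreP 13 :=
  coreP (by norm_num) bs13 ub lb

/-- The core for the level `169`, from the lower bound. -/
theorem core2_13 {dd : ℕ → ℕ} (lb : LBP 13 6 dd) : CoreVP 13 2 :=
  core2P (by norm_num) bs13 lb

/-- Weight two, levels `13^n`: nonvanishing at the centre for root number one, from the bounds. -/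
theorem lval13Of {dd : ℕ → ℕ} (ub : UBP 13 dd) (lb : LBP 13 6 dd)
    (n : ℕ) [NeZero (13 ^ n)] (f : CuspForm (G0 (13 ^ n)) 2) (hf : IsNewN f)
    (hR : Pool.Agent.Helper14.CV.RootOne f) : Pool.Agent.Helper14.CV.Lan f (1 / 2) ≠ 0 :=
  lvalOf (by norm_num) bs13 core1_13 ub lb n f hf hR

end Pool.Agent.Helper83.P13
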